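import Pool.Agent.H16.HG.Defs

/-! Part LB of crew HG: the complete bipartite graph `K_{m,m+t}`, `m = k(t-1)-1`. -/

set_option autoImplicit false

namespace HG.LBpart

open Finset

/-- in a walk of a complete bipartite graph the right vertices exceed the left ones by at most one -/
lemma count_walk {α β : Type} : ∀ {u v : α ⊕ β} (p : (completeBipartiteGraph α β).Walk u v),
    (p.support.filter fun x => x.isRight).length + (if u.isRight then 0 else 1) ≤
      (p.support.filter fun x => x.isLeft).length + 1 := by
  intro u v p
  induction p with
  | nil => rename_i u; cases u <;> simp [List.filter_cons]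
  | cons h p ih =>
    rename_i u w v
    rw [SimpleGraph.Walk.support_cons, List.filter_cons, List.filter_cons]
    rw [completeBipartiteGraph_adj] at h
    rcases u with u | u <;> rcases w with w | w <;> simp at h ih ⊢ <;> omega

lemma conn (α β : Type) [Fintype α] [Fintype β] (X : Set (α ⊕ β)) (a : α) (b : β) (ha : Sum.inl a ∉ X)
    (hb : Sum.inr b ∉ X) : ((completeBipartiteGraph α β).induce (Xᶜ)).Connected := by
  have hab : ((completeBipartiteGraph α β).induce (Xᶜ)).Adj ⟨Sum.inl a, ha⟩ ⟨Sum.inr b, hb⟩ := by simp
  have key : ∀ x : (Xᶜ : Set (α ⊕ β)), ((completeBipartiteGraph α β).induce (Xᶜ)).Reachable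
      ⟨Sum.inl a, ha⟩ x := by
    rintro ⟨x | x, hx⟩
    · refine hab.reachable.trans (SimpleGraph.Adj.reachable ?_)
      simp
    · refine SimpleGraph.Adj.reachable ?_
      simp
  have : Nonempty (Xᶜ : Set (α ⊕ β)) := ⟨⟨Sum.inl a, ha⟩⟩
  exact ⟨fun x y => (key x).symm.trans (key y)⟩

end HG.LBpart

open HG.LBpart Finset in
theorem HG.LB_proved : HG.S_LB := by
  classical
  intro t k ht hk
  set m := k * (t - 1) - 1 with hm
  have hkt : 4 ≤ k * (t - 1) := by
    calc 4 = 2 * 2 := rfl
      _ ≤ k * (t - 1) := Nat.mul_le_mul hk (by omega)
  refine ⟨Fin m ⊕ Fin (m + t), completeBipartiteGraph _ _, inferInstance, ⟨?_, ?_⟩, ?_⟩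
  · simp only [Nat.card_eq_fintype_card, Fintype.card_sum, Fintype.card_fin]
    omega
  · intro X hX
    have h1 : ∃ a : Fin m, Sum.inl a ∉ X := by
      by_contra hcon
      push Not at hcon
      have : (univ.image (Sum.inl : Fin m → Fin m ⊕ Fin (m + t))) ⊆ X := by
        intro x hx
        simp only [mem_image, mem_univ, true_and] at hx
        obtain ⟨a, rfl⟩ := hx
        exact hcon a
      have h := card_le_card this
      rw [card_image_of_injective _ Sum.inl_injective, card_univ, Fintype.card_fin] at h
      omega
    have h2 : ∃ a : Fin (m + t), Sum.inr a ∉ X := by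
      by_contra hcon
      push Not at hcon
      have : (univ.image (Sum.inr : Fin (m + t) → Fin m ⊕ Fin (m + t))) ⊆ X := by
        intro x hx
        simp only [mem_image, mem_univ, true_and] at hx
        obtain ⟨a, rfl⟩ := hx
        exact hcon a
      have h := card_le_card this
      rw [card_image_of_injective _ Sum.inr_injective, card_univ, Fintype.card_fin] at h
      omega
    obtain ⟨a, ha⟩ := h1
    obtain ⟨b, hb⟩ := h2
    exact conn _ _ (X : Set _) a b (by simpa using ha) (by simpa using hb)
  · rintro ⟨-, hA⟩
    let f : Fin t → Fin m ⊕ Fin (m + t) := fun i => Sum.inr (Fin.castLE (by omega) i)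
    have hf : Function.Injective f := by
      intro i j hij
      have := Sum.inr_injective hij
      exact (Fin.castLE_injective _) this
    obtain ⟨a, b, P, hP, hPP⟩ := hA (univ.image f) (by
      rw [card_image_of_injective _ hf, card_univ, Fintype.card_fin])
    let L : Fin k → Finset (Fin m) := fun i => univ.filter fun x => Sum.inl x ∈ (P i).support
    have hL : ∀ i, t - 1 ≤ (L i).card := by
      intro i
      have h1 := count_walk (P i)
      have h2 : t ≤ ((P i).support.filter fun x => x.isRight).length := by
        have hnd : ((P i).support.filter fun x => x.isRight).Nodup := ((hP i).1.support_nodup).filter _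
        rw [← List.toFinset_card_of_nodup hnd]
        calc t = (univ.image f).card := by
              rw [card_image_of_injective _ hf, card_univ, Fintype.card_fin]
          _ ≤ _ := by
              apply card_le_card
              intro x hx
              rw [List.mem_toFinset, List.mem_filter]
              refine ⟨(hP i).2 x hx, ?_⟩
              simp only [mem_image, mem_univ, true_and] at hx
              obtain ⟨j, rfl⟩ := hx
              rfl
      have h3 : ((P i).support.filter fun x => x.isLeft).length ≤ (L i).card := by
        have hnd : ((P i).support.filter fun x => x.isLeft).Nodup := ((hP i).1.support_nodup).filter _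
        rw [← List.toFinset_card_of_nodup hnd]
        rw [← card_image_of_injective (L i) (Sum.inl_injective (β := Fin (m + t)))]
        apply card_le_card
        intro x hx
        rw [List.mem_toFinset, List.mem_filter] at hx
        rcases x with x | x
        · rw [mem_image]
          exact ⟨x, by simpa [L] using hx.1, rfl⟩
        · simp at hx
      split_ifs at h1 <;> omega
    have hdis : ∀ i ∈ (univ : Finset (Fin k)), ∀ j ∈ (univ : Finset (Fin k)), i ≠ j →
        Disjoint (L i) (L j) := by
      intro i _ j _ hij
      rw [Finset.disjoint_left]
      intro x hx hx'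
      have h := (hPP i j hij).1 (Sum.inl x) (by simpa [L] using hx) (by simpa [L] using hx')
      simp only [mem_image, mem_univ, true_and] at h
      obtain ⟨j, hj⟩ := h
      simp [f] at hj
    have hcard : ∑ i, (L i).card ≤ m := by
      rw [← card_biUnion hdis]
      calc _ ≤ (univ : Finset (Fin m)).card := card_le_card (subset_univ _)
        _ = m := by simp
    have : k * (t - 1) ≤ m := by
      calc k * (t - 1) = ∑ _i : Fin k, (t - 1) := by simp
        _ ≤ ∑ i, (L i).card := sum_le_sum fun i _ => hL i
        _ ≤ m := hcard
    omega
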